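import Pool.Agent.Helper26.PL.PD

/-!
MP_fcb106_co (polynomial upper bound), row PA1b: the new level.
-/

set_option autoImplicit false

namespace Pool.Agent.Helper92.PL

open Finset
open Pool.Agent.Helper33.DP Pool.Agent.Helper26.PL

theorem comp_core {w : ℕ} {P : Set ℕ} {le : ℕ → ℕ → Prop} (hP : PO P le w)
    (X Y Z : Fin w → ℕ) : comp (core le X Y) (core le Y Z) ⊆ core le X Z := by
  classical
  intro e he
  unfold comp at he
  rw [Finset.mem_filter] at he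
  obtain ⟨-, x, h1, h2⟩ := he
  unfold core at h1 h2 ⊢
  rw [Finset.mem_filter] at h1 h2 ⊢
  obtain ⟨-, σ, s1, s2⟩ := h1
  obtain ⟨-, τ, t1, t2⟩ := h2
  refine ⟨Finset.mem_univ _, σ.trans τ, ?_, fun i => ?_⟩
  · have e1 : σ e.1 = x := s1
    have e2 : τ x = e.2 := t1
    rw [Equiv.trans_apply, e1, e2]
  · rw [Equiv.trans_apply]
    exact hP.trans _ _ _ (s2 i) (t2 (σ i))

theorem PA1b (hCORE : ST_CORE) (hBETW : ST_BETW) (hNAM : ST_NAM) : ST_PA1b := by
  intro w N Good P le M n l l' hP hS hl hl' hM hMn hb ha hb' hN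
  obtain ⟨X, hX, hXn, hb1, hb2⟩ := hBETW w P le l.1 l'.1 M n hP hl hl' hM hb hMn ha hb'
  have c0 := hCORE w P le l.1 l'.1 hP hl hl' hb
  have c1 := hCORE w P le l.1 X hP hl hX hb1
  have c2 := hCORE w P le X l'.1 hP hX hl' hb2
  obtain ⟨z, hz, hg1, hg2⟩ := hS.split _ _ _ _ c0 c1 c2 (comp_core hP l.1 X l'.1) hN
  obtain ⟨r, hr, hr1, hr2⟩ := hNAM w N _ _ l.2 l'.2 z hz
  have e1 : cnt l.2 r = fun a x => ∑ b, z a x b := by
    funext a x
    exact hr1 a x
  have e2 : cnt r l'.2 = fun x b => ∑ a, z a x b := by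
    funext x b
    exact hr2 x b
  refine ⟨(X, r), hX, hXn, hb1, hb2, hr, ?_, ?_⟩
  · show Good (core le l.1 X) (cnt l.2 r)
    rw [e1]
    exact hg1
  · show Good (core le X l'.1) (cnt r l'.2)
    rw [e2]
    exact hg2

end Pool.Agent.Helper92.PL
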