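import Pool.Agent.Helper26.PL.PD

/-!
MP_fcb106_co (polynomial upper bound), row PA2: the invariant is kept.
-/

set_option autoImplicit false

namespace Pool.Agent.Helper92.PL

open Finset
open Pool.Agent.Helper33.DP Pool.Agent.Helper26.PL

theorem core_le {w : ℕ} {le : ℕ → ℕ → Prop} {X Y : Fin w → ℕ} {a b : Fin w}
    (h : (a, b) ∈ core le X Y) : le (X a) (Y b) := by
  classical
  unfold core at h
  rw [Finset.mem_filter] at h
  obtain ⟨-, σ, h1, h2⟩ := h
  have h3 := h2 a
  have h4 : σ a = b := h1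
  rw [h4] at h3
  exact h3

theorem bel_trans {w : ℕ} {P : Set ℕ} {le : ℕ → ℕ → Prop} (hP : PO P le w)
    {X Y Z : Fin w → ℕ} (h1 : Bel le X Y) (h2 : Bel le Y Z) : Bel le X Z := by
  intro a
  obtain ⟨b, hb⟩ := h1 a
  obtain ⟨c, hc⟩ := h2 b
  exact ⟨c, hP.trans _ _ _ hb hc⟩

/-- the levels below the lower level are below the new level -/
theorem bef_left {w N : ℕ} {Good : Gr w → (Fin w → Fin w → ℕ) → Prop} {P : Set ℕ}
    {le : ℕ → ℕ → Prop} {n : ℕ} (hP : PO P le w) {l X l' y : Lev w N}
    (hQ : Q Good P le n l X l') (h : Bef le y l) : Bef le y X := by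
  refine ⟨bel_trans hP h.bel hQ.b1, fun c a x ha hx => ?_⟩
  obtain ⟨a', b, h1, -, h3, -⟩ := hQ.nam c x hx
  exact hP.trans _ _ _ (h.ch c a a' ha h1) (core_le h3)

theorem bef_left' {w N : ℕ} {Good : Gr w → (Fin w → Fin w → ℕ) → Prop} {P : Set ℕ}
    {le : ℕ → ℕ → Prop} {n : ℕ} {l X l' : Lev w N}
    (hQ : Q Good P le n l X l') : Bef le l X := by
  refine ⟨hQ.b1, fun c a x ha hx => ?_⟩
  obtain ⟨a', b, h1, -, h3, -⟩ := hQ.nam c x hx
  rw [ha] at h1
  obtain rfl : a = a' := Option.some.inj h1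
  exact core_le h3

/-- the levels above the upper level are above the new level -/
theorem bef_right {w N : ℕ} {Good : Gr w → (Fin w → Fin w → ℕ) → Prop} {P : Set ℕ}
    {le : ℕ → ℕ → Prop} {n : ℕ} (hP : PO P le w) {l X l' y : Lev w N}
    (hQ : Q Good P le n l X l') (h : Bef le l' y) : Bef le X y := by
  refine ⟨bel_trans hP hQ.b2 h.bel, fun c x b hx hb => ?_⟩
  obtain ⟨a, b', -, h2, -, h4⟩ := hQ.nam c x hx
  exact hP.trans _ _ _ (core_le h4) (h.ch c b' b h2 hb)

theorem bef_right' {w N : ℕ} {Good : Gr w → (Fin w → Fin w → ℕ) → Prop} {P : Set ℕ}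
    {le : ℕ → ℕ → Prop} {n : ℕ} {l X l' : Lev w N}
    (hQ : Q Good P le n l X l') : Bef le X l' := by
  refine ⟨hQ.b2, fun c x b hx hb => ?_⟩
  obtain ⟨a, b', -, h2, -, h4⟩ := hQ.nam c x hx
  rw [hb] at h2
  obtain rfl : b = b' := Option.some.inj h2
  exact core_le h4

theorem PA2 : ST_PA2 := by
  intro w N Good P le bot top n t t' l X l' hP hI hQ
  obtain ⟨han, hord, hnb, hends⟩ := hI
  rw [List.pairwise_append] at hord
  obtain ⟨o1, o2, o3⟩ := hord
  rw [List.pairwise_cons, List.pairwise_cons] at o2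
  obtain ⟨o4, o5, o6⟩ := o2
  refine ⟨?_, ?_, ?_, ?_⟩
  · intro y hy
    simp only [List.mem_append, List.mem_cons] at hy
    rcases hy with hy | rfl | rfl | hy
    · exact han y (by simp [hy])
    · exact han y (by simp)
    · exact hQ.an
    · exact han y (by
        simp only [List.mem_append, List.mem_cons]
        tauto)
  · rw [List.pairwise_append, List.pairwise_cons, List.pairwise_cons, List.pairwise_cons]
    refine ⟨o1, ⟨?_, ?_, o5, o6⟩, ?_⟩
    · intro y hy
      rcases List.mem_cons.1 hy with rfl | hy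
      · exact bef_left' hQ
      · exact o4 y hy
    · intro y hy
      rcases List.mem_cons.1 hy with rfl | hy
      · exact bef_right' hQ
      · exact bef_right hP hQ (o5 y hy)
    · intro y hy z hz
      rcases List.mem_cons.1 hz with rfl | hz
      · exact o3 y hy z (by simp)
      · rcases List.mem_cons.1 hz with rfl | hz
        · exact bef_left hP hQ (o3 y hy l (by simp))
        · exact o3 y hy z (List.mem_cons_of_mem _ hz)
  · have h1 : (t ++ [l]).IsChain (Nb Good le) ∧ Nb Good le l l' ∧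
        (l' :: t').IsChain (Nb Good le) := List.isChain_append_cons_cons.1 hnb
    refine List.isChain_append_cons_cons.2 ⟨h1.1, hQ.g1, ?_⟩
    exact List.isChain_cons_cons.2 ⟨hQ.g2, h1.2.2⟩
  · obtain ⟨l0, l0', t0, hs, h0, h0'⟩ := hends
    obtain ⟨u, hu⟩ : ∃ u, t ++ [l] = l0 :: u := by
      cases t with
      | nil =>
        rw [List.nil_append] at hs
        exact ⟨[], by rw [List.nil_append, (List.cons.inj hs).1]⟩
      | cons y t =>
        rw [List.cons_append] at hs
        exact ⟨t ++ [l], by rw [List.cons_append, (List.cons.inj hs).1]⟩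
    obtain ⟨v, hv⟩ : ∃ v, l' :: t' = v ++ [l0'] := by
      rcases List.eq_nil_or_concat t' with rfl | ⟨t1, y, rfl⟩
      · refine ⟨[], ?_⟩
        have h1 : (t ++ [l]) ++ [l'] = (l0 :: t0) ++ [l0'] := by
          simpa using hs
        have := List.append_inj_right' h1 rfl
        simpa using this
      · refine ⟨l' :: t1, ?_⟩
        have h1 : (t ++ l :: l' :: t1) ++ [y] = (l0 :: t0) ++ [l0'] := by
          simpa using hs
        have := List.append_inj_right' h1 rfl
        rw [List.concat_eq_append, List.cons_append, this]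
    refine ⟨l0, l0', u ++ X :: v, ?_, h0, h0'⟩
    have e : t ++ l :: X :: l' :: t' = (t ++ [l]) ++ X :: (l' :: t') := by simp
    rw [e, hu, hv]
    simp

end Pool.Agent.Helper92.PL
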